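import Pool.Agent.H41.TF6

namespace Pool.Agent.Results.MP_8b3296_mp.NotMono

open Pool.Agent.H41.TF

theorem result :
    ∀ p A γ C : ℝ, 4 / 3 < p → 0 < A → 0 < γ → 0 < C → ∃ Z c : ℝ, 0 < Z ∧ 0 < c ∧
      ∀ (k : ℕ) (z : Fin k → ℝ) (R : Fin k → E3), (∀ j, 0 < z j) → ∑ j, z j ≤ Z →
        ∀ l, 0 ≤ l → Ealpha p A γ C z R 0 + c * l ≤ Ealpha p A γ C z R l :=
  fun _ _ _ _ => grow

end Pool.Agent.Results.MP_8b3296_mp.NotMono
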